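import Pool.Agent.helper84.ZD.SpecA

/-!
# Project zd, module KAPF: the Fourier transform of `1/(1+x²)`
-/

set_option autoImplicit false

open Complex MeasureTheory Set
open scoped FourierTransform RealInnerProductSpace

namespace Pool.Agent.ZD

/-- `e^(-|x|)` is integrable. -/
theorem KAPF_integrable_exp : Integrable (fun u : ℝ => Real.exp (-|u|)) := by
  have h1 : IntegrableOn (fun u : ℝ => Real.exp (-|u|)) (Iic 0) := by
    refine (integrableOn_exp_Iic 0).congr_fun ?_ measurableSet_Iic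
    intro u hu
    have hu' : u ≤ 0 := hu
    simp only [abs_of_nonpos hu', neg_neg]
  have h2 : IntegrableOn (fun u : ℝ => Real.exp (-|u|)) (Ioi 0) := by
    refine (integrableOn_exp_neg_Ioi 0).congr_fun ?_ measurableSet_Ioi
    intro u hu
    have hu' : 0 < u := hu
    simp only [abs_of_pos hu']
  have := h1.union h2
  rwa [Iic_union_Ioi, integrableOn_univ] at this

/-- The function `e^(-|x|)`, complex valued. -/
noncomputable def KAPF_f (x : ℝ) : ℂ := ((Real.exp (-|x|) : ℝ) : ℂ)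

theorem KAPF_f_cont : Continuous KAPF_f := by
  unfold KAPF_f
  fun_prop

theorem KAPF_f_int : Integrable KAPF_f := by
  unfold KAPF_f
  exact KAPF_integrable_exp.ofReal

theorem KAPF_kap_int : Integrable (fun x : ℝ => kap x) := by
  unfold kap
  simpa [one_div] using integrable_inv_one_add_sq

theorem KAPF_kap_int_mul {c : ℝ} (hc : c ≠ 0) : Integrable (fun x : ℝ => kap (c * x)) :=
  KAPF_kap_int.comp_mul_left' hc

/-- The integral of `e^(i c x - |x|)`. -/
theorem KAPF_int (c : ℝ) : ∫ v : ℝ, Complex.exp (((c * v : ℝ) : ℂ) * I) * KAPF_f v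
    = ((2 * kap c : ℝ) : ℂ) := by
  have hint : Integrable (fun v : ℝ => Complex.exp (((c * v : ℝ) : ℂ) * I) * KAPF_f v) := by
    refine KAPF_f_int.bdd_mul (c := 1) ?_ ?_
    · exact (Continuous.aestronglyMeasurable (by fun_prop))
    · exact Filter.Eventually.of_forall fun v => by rw [Complex.norm_exp_ofReal_mul_I]
  rw [← intervalIntegral.integral_Iic_add_Ioi (b := 0) hint.integrableOn hint.integrableOn]
  have h1 : ∫ v : ℝ in Iic 0, Complex.exp (((c * v : ℝ) : ℂ) * I) * KAPF_f v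
      = ∫ v : ℝ in Iic 0, Complex.exp ((1 + (c : ℂ) * I) * v) := by
    refine setIntegral_congr_fun measurableSet_Iic fun v hv => ?_
    have hv' : v ≤ 0 := hv
    simp only [KAPF_f, abs_of_nonpos hv', neg_neg]
    rw [Complex.ofReal_exp, ← Complex.exp_add]
    congr 1
    push_cast
    ring
  have h2 : ∫ v : ℝ in Ioi 0, Complex.exp (((c * v : ℝ) : ℂ) * I) * KAPF_f v
      = ∫ v : ℝ in Ioi 0, Complex.exp ((-1 + (c : ℂ) * I) * v) := by
    refine setIntegral_congr_fun measurableSet_Ioi fun v hv => ?_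
    have hv' : 0 < v := hv
    simp only [KAPF_f, abs_of_pos hv']
    rw [Complex.ofReal_exp, ← Complex.exp_add]
    congr 1
    push_cast
    ring
  rw [h1, h2, integral_exp_mul_complex_Iic (by simp), integral_exp_mul_complex_Ioi (by simp)]
  simp only [Complex.ofReal_zero, mul_zero, Complex.exp_zero]
  have e1 : (1 + (c : ℂ) * I) ≠ 0 := fun h => by
    have := congrArg Complex.re h
    simp at this
  have e2 : (-1 + (c : ℂ) * I) ≠ 0 := fun h => by
    have := congrArg Complex.re h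
    simp at this
  have e3 : (1 + (c : ℂ) ^ 2) ≠ 0 := by
    have : (0 : ℝ) < 1 + c ^ 2 := by positivity
    exact_mod_cast this.ne'
  unfold kap
  push_cast
  field_simp
  ring_nf
  rw [Complex.I_sq]
  ring

theorem KAPF_fourier (ξ : ℝ) : 𝓕 KAPF_f ξ = ((2 * kap (2 * Real.pi * ξ) : ℝ) : ℂ) := by
  rw [Real.fourier_real_eq_integral_exp_smul]
  have h := KAPF_int (-2 * Real.pi * ξ)
  have hk : kap (-2 * Real.pi * ξ) = kap (2 * Real.pi * ξ) := by
    unfold kap
    ring_nf
  rw [hk] at h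
  rw [← h]
  refine integral_congr_ae (Filter.Eventually.of_forall fun v => ?_)
  simp only [smul_eq_mul]
  congr 3
  ring_nf

theorem KAPF_fourier_int : Integrable (𝓕 KAPF_f) := by
  have : 𝓕 KAPF_f = fun ξ => ((2 * kap (2 * Real.pi * ξ) : ℝ) : ℂ) := by
    ext ξ
    exact KAPF_fourier ξ
  rw [this]
  refine Integrable.ofReal ?_
  exact (KAPF_kap_int_mul (by positivity)).const_mul 2

theorem KAPF_inv (w : ℝ) :
    ∫ v : ℝ, Complex.exp (((2 * Real.pi * (v * w) : ℝ) : ℂ) * I) * ((kap (2 * Real.pi * v) : ℝ) : ℂ)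
      = KAPF_f w / 2 := by
  have h := congrFun (KAPF_f_cont.fourierInv_fourier_eq KAPF_f_int KAPF_fourier_int) w
  rw [Real.fourierInv_eq'] at h
  rw [← h, eq_div_iff (by norm_num : (2 : ℂ) ≠ 0), ← integral_mul_const]
  refine integral_congr_ae (Filter.Eventually.of_forall fun v => ?_)
  simp only [smul_eq_mul, KAPF_fourier]
  have hin : (⟪v, w⟫ : ℝ) = v * w := by
    simp [mul_comm]
  rw [hin]
  push_cast
  ring

/-- **KAPF**. -/
theorem KAPF : KAPF_stmt := by
  intro κ τ hκ
  refine ⟨KAPF_kap_int_mul hκ.ne', ?_⟩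
  have h := KAPF_inv (τ / κ)
  have hs := MeasureTheory.Measure.integral_comp_mul_left
    (fun a : ℝ => Complex.exp (((τ * a : ℝ) : ℂ) * I) * ((kap (κ * a) : ℝ) : ℂ)) (2 * Real.pi / κ)
  have hpos : 0 < 2 * Real.pi / κ := by positivity
  have hcong : ∀ v : ℝ, Complex.exp (((τ * (2 * Real.pi / κ * v) : ℝ) : ℂ) * I)
      * ((kap (κ * (2 * Real.pi / κ * v)) : ℝ) : ℂ)
      = Complex.exp (((2 * Real.pi * (v * (τ / κ)) : ℝ) : ℂ) * I)
        * ((kap (2 * Real.pi * v) : ℝ) : ℂ) := by
    intro v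
    have a1 : τ * (2 * Real.pi / κ * v) = 2 * Real.pi * (v * (τ / κ)) := by
      field_simp
    have a2 : κ * (2 * Real.pi / κ * v) = 2 * Real.pi * v := by
      field_simp
    rw [a1, a2]
  simp only [hcong] at hs
  rw [h, abs_of_pos (by positivity), Complex.real_smul] at hs
  have habs : |τ / κ| = |τ| / κ := by rw [abs_div, abs_of_pos hκ]
  have hfin : ∫ a : ℝ, Complex.exp (((τ * a : ℝ) : ℂ) * I) * ((kap (κ * a) : ℝ) : ℂ)
      = ((2 * Real.pi / κ : ℝ) : ℂ) * (KAPF_f (τ / κ) / 2) := by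
    rw [hs, ← mul_assoc, ← Complex.ofReal_mul, mul_inv_cancel₀ hpos.ne', Complex.ofReal_one,
      one_mul]
  rw [hfin]
  unfold KAPF_f
  rw [habs]
  push_cast
  ring

end Pool.Agent.ZD
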